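import Pool.Agent.Mg.F1dd261.Ge94a9a

namespace Pool.Agent.Results.MP_1dd261_pr.Linear

open Pool.Agent.MP_1dd261_pr

theorem result (n k r : ℕ) [NeZero k] (hr : 0 < r) (a m : Fin r → ℕ) (ha : ∀ i, 2 ≤ a i)
    (hm : ∀ i, k ≤ m i) (hn : n = ∑ i, a i * m i) (w : ℝ) (hw : 0 ≤ w) :
    ∃ (μ : (Fin k → Fin n) → ℝ) (K : Fin k → (Fin k → Fin n) → Fin n → ℝ), IsMAC w μ K :=
  have : Nonempty (Fin r) := ⟨⟨0, hr⟩⟩
  exists_isMAC hw a m ha hm n hn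

end Pool.Agent.Results.MP_1dd261_pr.Linear
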