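import Pool.Agent.Mg.F1dd261.Ge94a9a
import Pool.Agent.Mg.F1dd261.G61d9a7

namespace Pool.Agent.Results.MP_1dd261_pr.TwoWalkers

open Pool.Agent.MP_1dd261_pr

theorem result (n : ℕ) (w : ℝ) (hw : 0 ≤ w) :
    (∃ (μ : (Fin 2 → Fin n) → ℝ) (K : Fin 2 → (Fin 2 → Fin n) → Fin n → ℝ), IsMAC w μ K) ↔
      4 ≤ n ∨ (n = 3 ∧ 2 ≤ w) := by
  constructor
  · rintro ⟨μ, K, h⟩
    rcases (not_two hw h).eq_or_lt with rfl | h4
    · exact Or.inr ⟨rfl, nec_three hw h⟩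
    · exact Or.inl h4
  · rintro (h4 | ⟨rfl, h⟩)
    · rcases Nat.even_or_odd' n with ⟨m, rfl | rfl⟩
      · exact exists_isMAC hw (ι := Unit) (fun _ => 2) (fun _ => m) (fun _ => le_rfl)
          (fun _ => by omega) _ (by simp)
      · obtain ⟨l, rfl⟩ : ∃ l, m = l + 2 := ⟨m - 2, by omega⟩
        exact exists_odd l hw
    · exact exists_three h

end Pool.Agent.Results.MP_1dd261_pr.TwoWalkers
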